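import Pool.Agent.TH179.SD.Geo

/-!
# SD-G7a: smooth cut-off functions on the manifold (job 1658)
-/

set_option autoImplicit false

open scoped ContDiff Topology Manifold
open Set

noncomputable section

namespace Pool.Agent.TH959.SD
open Pool.Agent.TH179.SD

variable {M : Type} [TopologicalSpace M]

/-- the charted space structure given by the charts -/
@[reducible] def chSp (D : Model M) : ChartedSpace V M where
  atlas := Set.range D.φ
  chartAt x := D.φ (D.cover x).choose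
  mem_chart_source x := (D.cover x).choose_spec
  chart_mem_atlas _ := ⟨_, rfl⟩

theorem manif (D : Model M)
    (hs : ∀ c d, ContDiffOn ℝ ∞ (tr c d) (O c d)) :
    @IsManifold ℝ _ V _ _ V _ 𝓘(ℝ, V) ∞ M _ (chSp D) := by
  let _ := chSp D
  refine isManifold_of_contDiffOn 𝓘(ℝ, V) ∞ M ?_
  rintro _ _ ⟨c, rfl⟩ ⟨d, rfl⟩
  have h := hs c d
  refine (h.mono ?_).congr ?_
  · rintro q ⟨hq, -⟩
    have h1 : q ∈ ((D.φ c).symm ≫ₕ D.φ d).source := hq
    rw [OpenPartialHomeomorph.trans_source] at h1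
    exact (D.overlap c d q).1 h1.2
  · rintro q ⟨hq, -⟩
    have h1 : q ∈ ((D.φ c).symm ≫ₕ D.φ d).source := hq
    rw [OpenPartialHomeomorph.trans_source] at h1
    exact D.trans c d q ((D.overlap c d q).1 h1.2)

theorem cut_aux [CompactSpace M] [T2Space M] (D : Model M)
    (hs : ∀ c d, ContDiffOn ℝ ∞ (tr c d) (O c d)) (P Q : Set M) (hP : IsOpen P) (hQ : IsOpen Q) :
    ∃ ρ : M → ℝ,
      (∀ c, ContDiffOn ℝ ∞ (fun q => ρ ((D.φ c).symm q)) ((D.φ c).symm ⁻¹' (P ∪ Q))) ∧
      (∀ x ∈ P, x ∉ Q → ∀ᶠ y in 𝓝 x, ρ y = 0) ∧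
      (∀ x ∈ Q, x ∉ P → ∀ᶠ y in 𝓝 x, ρ y = 1) := by
  let _ := chSp D
  have := manif D hs
  let N : TopologicalSpace.Opens M := ⟨P ∪ Q, hP.union hQ⟩
  have : SecondCountableTopology M := ChartedSpace.secondCountable_of_sigmaCompact V M
  have : SecondCountableTopology N := inferInstance
  have : LocallyCompactSpace N := N.isOpen.locallyCompactSpace
  have : SigmaCompactSpace N := inferInstance
  let A : Set N := {x | x.1 ∉ Q}
  let B : Set N := {x | x.1 ∉ P}
  have hA : IsClosed A := by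
    have : IsOpen (Subtype.val ⁻¹' Q : Set N) := hQ.preimage continuous_subtype_val
    exact this.isClosed_compl
  have hB : IsClosed B := by
    have : IsOpen (Subtype.val ⁻¹' P : Set N) := hP.preimage continuous_subtype_val
    exact this.isClosed_compl
  have hAB : Disjoint A B := by
    rw [Set.disjoint_left]
    rintro ⟨x, hx⟩ h1 h2
    rcases hx with h | h
    · exact h2 h
    · exact h1 h
  obtain ⟨f, hf0, hf1, -⟩ := exists_contMDiffMap_zero_one_nhds_of_isClosed 𝓘(ℝ, V)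
    (n := ⊤) hA hB hAB
  classical
  let ρ : M → ℝ := fun x => if h : x ∈ N then f ⟨x, h⟩ else 0
  have hρ : ∀ x : N, ρ x = f x := fun x => by
    simp only [ρ, dif_pos x.2]
  have hev : ∀ (x : N) (r : ℝ), (∀ᶠ y in 𝓝 x, f y = r) → ∀ᶠ y in 𝓝 x.1, ρ y = r := by
    intro x r h
    rw [← map_nhds_subtype_coe_eq_nhds x.2 (N.isOpen.mem_nhds x.2)]
    rw [Filter.eventually_map]
    filter_upwards [h] with y hy
    rw [hρ, hy]
  refine ⟨ρ, fun c q hq => ?_, fun x hx hx' => ?_, fun x hx hx' => ?_⟩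
  · have hx : (D.φ c).symm q ∈ N := hq
    have h1 : ContMDiffAt 𝓘(ℝ, V) 𝓘(ℝ, ℝ) ∞ ρ ((D.φ c).symm q) := by
      have h2 : ContMDiffAt 𝓘(ℝ, V) 𝓘(ℝ, ℝ) ∞ (fun x : N => ρ x) ⟨_, hx⟩ := by
        have h3 : (fun x : N => ρ x) = f := funext hρ
        rw [h3]
        exact f.contMDiff.contMDiffAt
      exact contMDiffAt_subtype_iff.1 h2
    have h4 : ContMDiffAt 𝓘(ℝ, V) 𝓘(ℝ, V) ∞ (D.φ c).symm q := by
      refine contMDiffAt_symm_of_mem_maximalAtlas ?_ ?_
      · exact IsManifold.subset_maximalAtlas ⟨c, rfl⟩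
      · rw [D.target]; trivial
    have h5 : ContMDiffAt 𝓘(ℝ, V) 𝓘(ℝ, ℝ) ∞ (ρ ∘ (D.φ c).symm) q := ContMDiffAt.comp q h1 h4
    rw [contMDiffAt_iff_contDiffAt] at h5
    exact h5.contDiffWithinAt
  · have h1 : ∀ᶠ y in 𝓝 (⟨x, Or.inl hx⟩ : N), f y = 0 := by
      exact hf0.filter_mono (nhds_le_nhdsSet (show (⟨x, Or.inl hx⟩ : N) ∈ A from hx'))
    exact hev ⟨x, Or.inl hx⟩ 0 h1
  · have h1 : ∀ᶠ y in 𝓝 (⟨x, Or.inr hx⟩ : N), f y = 1 := by
      exact hf1.filter_mono (nhds_le_nhdsSet (show (⟨x, Or.inr hx⟩ : N) ∈ B from hx'))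
    exact hev ⟨x, Or.inr hx⟩ 1 h1

/-- given the smoothness of the coordinate changes -/
theorem taskCut' (h : TaskSmooth) : TaskCut := fun _ _ _ _ D P Q hP hQ =>
  cut_aux D (fun c d => (h c d).2.2.1) P Q hP hQ

/-! ### smoothness of the coordinate changes -/

theorem mk_smooth {f g : V → ℝ} {x : V} (hf : ContDiffAt ℝ ∞ f x) (hg : ContDiffAt ℝ ∞ g x) :
    ContDiffAt ℝ ∞ (fun w => (⟨f w, g w⟩ : ℂ)) x :=
  Complex.equivRealProdCLM.symm.contDiff.contDiffAt.comp x (hf.prodMk hg)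

theorem re_smooth (i : Fin 4) (x : V) : ContDiffAt ℝ ∞ (fun w : V => (w i).re) x :=
  (Complex.reCLM.contDiff.comp (contDiff_apply ℝ ℂ i)).contDiffAt

theorem im_smooth (i : Fin 4) (x : V) : ContDiffAt ℝ ∞ (fun w : V => (w i).im) x :=
  (Complex.imCLM.contDiff.comp (contDiff_apply ℝ ℂ i)).contDiffAt

theorem na_smooth (x : V) : ContDiffAt ℝ ∞ na x :=
  (((re_smooth 0 x).pow 2).add ((im_smooth 0 x).pow 2)).add ((re_smooth 1 x).pow 2)

theorem nb_smooth (x : V) : ContDiffAt ℝ ∞ nb x :=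
  (((((im_smooth 1 x).pow 2).add ((re_smooth 2 x).pow 2)).add ((im_smooth 2 x).pow 2)).add
    ((re_smooth 3 x).pow 2)).add ((im_smooth 3 x).pow 2)

theorem invA_smooth {x : V} (h : na x ≠ 0) : ContDiffAt ℝ ∞ invA x := by
  rw [contDiffAt_pi]
  intro i
  have hn := na_smooth x
  fin_cases i
  · exact mk_smooth ((re_smooth 0 x).neg.div hn h) ((im_smooth 0 x).div hn h)
  · exact mk_smooth ((re_smooth 1 x).div hn h) (im_smooth 1 x)
  · exact (contDiff_apply ℝ ℂ (2 : Fin 4)).contDiffAt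
  · exact (contDiff_apply ℝ ℂ (3 : Fin 4)).contDiffAt

theorem invB_smooth {x : V} (h : nb x ≠ 0) : ContDiffAt ℝ ∞ invB x := by
  rw [contDiffAt_pi]
  intro i
  have hn := nb_smooth x
  fin_cases i
  · exact (contDiff_apply ℝ ℂ (0 : Fin 4)).contDiffAt
  · exact mk_smooth (re_smooth 1 x) ((im_smooth 1 x).div hn h)
  · exact mk_smooth ((re_smooth 2 x).neg.div hn h) ((im_smooth 2 x).div hn h)
  · exact mk_smooth ((re_smooth 3 x).div hn h) ((im_smooth 3 x).div hn h)

theorem na_invB (x : V) : na (invB x) = na x := by simp [na, invB]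

theorem invAB_smooth {x : V} (ha : na x ≠ 0) (hb : nb x ≠ 0) :
    ContDiffAt ℝ ∞ (fun q => invA (invB q)) x :=
  ContDiffAt.comp x (invA_smooth (by rwa [na_invB])) (invB_smooth hb)

theorem ap_smooth (i : Fin 4) (x : V) : ContDiffAt ℝ ∞ (fun w : V => w i) x :=
  (contDiff_apply ℝ ℂ i).contDiffAt

theorem bd_smooth (j : Fin 4) (x : V) : ContDiffAt ℝ ∞ (bd j) x := by
  rw [contDiffAt_pi]
  intro i
  unfold bd
  by_cases h : i = j
  · simp only [if_pos h]; exact ap_smooth j x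
  · simp only [if_neg h]; exact (ap_smooth j x).mul (ap_smooth i x)

theorem bu_smooth (j : Fin 4) {x : V} (hx : x j ≠ 0) : ContDiffAt ℝ ∞ (bu j) x := by
  rw [contDiffAt_pi]
  intro i
  unfold bu
  by_cases h : i = j
  · simp only [if_pos h]; exact ap_smooth j x
  · simp only [if_neg h, div_eq_mul_inv]; exact (ap_smooth i x).mul ((ap_smooth j x).inv hx)

theorem toW_smooth (c : Idx) {x : V} (hx : x ∈ domW c) : ContDiffAt ℝ ∞ (toW c) x := by
  match c, hx with
  | Sum.inl j, _ => exact bd_smooth j x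
  | Sum.inr 0, hx => exact invA_smooth hx
  | Sum.inr 1, hx => exact invB_smooth hx
  | Sum.inr 2, hx => exact invAB_smooth hx.1 hx.2

theorem fromW_smooth (c : Idx) {x : V} (hx : x ∈ rngW c) : ContDiffAt ℝ ∞ (fromW c) x := by
  match c, hx with
  | Sum.inl j, hx => exact bu_smooth j hx
  | Sum.inr 0, hx => exact invA_smooth hx
  | Sum.inr 1, hx => exact invB_smooth hx
  | Sum.inr 2, hx => exact invAB_smooth hx.1 hx.2

theorem tr_smooth (c d : Idx) {x : V} (hx : x ∈ O c d) : ContDiffAt ℝ ∞ (tr c d) x := by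
  match c, d, hx with
  | Sum.inl j, Sum.inl k, hx =>
    unfold tr
    unfold O at hx
    by_cases h : j = k
    · simp only [if_pos h]; exact contDiffAt_id
    · simp only [if_neg h] at hx ⊢
      have hx' : x k ≠ 0 := hx
      rw [contDiffAt_pi]
      intro i
      by_cases h1 : i = k
      · simp only [if_pos h1]; exact (ap_smooth j x).mul (ap_smooth k x)
      · by_cases h2 : i = j
        · simp only [if_neg h1, if_pos h2]; exact (ap_smooth k x).inv hx'
        · simp only [if_neg h1, if_neg h2, div_eq_mul_inv]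
          exact (ap_smooth i x).mul ((ap_smooth k x).inv hx')
  | Sum.inr c, Sum.inr d, hx =>
    unfold tr
    unfold O at hx
    by_cases h : c = d
    · simp only [if_pos h]; exact contDiffAt_id
    · simp only [if_neg h] at hx ⊢
      by_cases h1 : c ≠ 0 ∧ d ≠ 0
      · simp only [if_pos h1] at hx ⊢
        exact invA_smooth hx
      · simp only [if_neg h1] at hx ⊢
        by_cases h2 : c ≠ 1 ∧ d ≠ 1
        · simp only [if_pos h2] at hx ⊢
          exact invB_smooth hx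
        · simp only [if_neg h2] at hx ⊢
          exact invAB_smooth hx.1 hx.2
  | Sum.inl j, Sum.inr d, hx =>
    have hx' : x ∈ domW (Sum.inl j) ∧ toW (Sum.inl j) x ∈ rngW (Sum.inr d) := hx
    exact ContDiffAt.comp x (fromW_smooth _ hx'.2) (toW_smooth _ hx'.1)
  | Sum.inr c, Sum.inl k, hx =>
    have hx' : x ∈ domW (Sum.inr c) ∧ toW (Sum.inr c) x ∈ rngW (Sum.inl k) := hx
    exact ContDiffAt.comp x (fromW_smooth _ hx'.2) (toW_smooth _ hx'.1)

/-- G7a -/
theorem taskCut : TaskCut := fun _ _ _ _ D P Q hP hQ =>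
  cut_aux D (fun c d _ hq => (tr_smooth c d hq).contDiffWithinAt) P Q hP hQ

end Pool.Agent.TH959.SD
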